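import Pool.Agent.X19.DP.Multi

/-!
One polynomial whose image determines every homomorphism with a non-constant image.
-/

set_option autoImplicit false

open Finset MvPolynomial

namespace Pool.Agent.X19.DP

variable {K : Type*} [Field K] [CharZero K]

/-- The key step. -/
theorem key {τ : Type*} {m q : ℕ} (W : Bool → Fin m → MvPolynomial τ K) (t : Fin m × Fin q → K)
    (hinj : Function.Injective t)
    (ht : ∀ (lam mu : K), lam ≠ 0 → ∀ a1 a2 a3 b1 b2 b3 : Fin m × Fin q, a1 ≠ a2 → a1 ≠ a3 →
        a2 ≠ a3 → t b1 = lam * t a1 + mu → t b2 = lam * t a2 + mu → t b3 = lam * t a3 + mu →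
        lam = 1 ∧ mu = 0)
    (hq : 2 * m * 2 < q) (N : ℕ) (hN : (Fintype.card (Bool × (Fin m × Fin q))) ^ 2 ≤ N)
    (hrel : ∑ e, (W true e.1 - C (t e)) ^ N = ∑ e, (W false e.1 - C (t e)) ^ N)
    (v : Fin m) (hv : ∀ c : K, W true v ≠ C c) : W true v = W false v := by
  classical
  set F : Bool × (Fin m × Fin q) → MvPolynomial τ K := fun j => W j.1 j.2.1 - C (t j.2) with hF
  have hF0 : ∀ s, F (true, (v, s)) ≠ 0 := by
    intro s h
    exact hv _ (sub_eq_zero.1 h)
  have hstep : ∀ s : Fin q, ∃ j, j ≠ (true, (v, s)) ∧ ∃ c : K, F (true, (v, s)) = c • F j := by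
    intro s
    refine exists_proportional F N hN _ (hF0 s) ?_
    have h1 : F (true, (v, s)) ^ N
        = ∑ e, F (false, e) ^ N - ∑ e ∈ univ.erase (v, s), F (true, e) ^ N := by
      have h2 := Finset.add_sum_erase univ (fun e => F (true, e) ^ N) (Finset.mem_univ (v, s))
      have h3 : ∑ e, F (true, e) ^ N = ∑ e, F (false, e) ^ N := hrel
      rw [← h3, ← h2]; ring
    rw [h1]
    refine Submodule.sub_mem _ ?_ ?_
    · refine Submodule.sum_mem _ fun e _ => Submodule.subset_span ⟨(false, e), ?_, rfl⟩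
      simp
    · refine Submodule.sum_mem _ fun e he => Submodule.subset_span ⟨(true, e), ?_, rfl⟩
      have := Finset.ne_of_mem_erase he
      simpa using this
  choose g hg c hc using hstep
  obtain ⟨y, hy⟩ := Fintype.exists_lt_card_fiber_of_mul_lt_card
    (f := fun s => ((g s).1, (g s).2.1)) (n := 2) (by simpa using hq)
  obtain ⟨s1, h1, s2, h2, s3, h3, h12, h13, h23⟩ := Finset.two_lt_card.1 hy
  rw [Finset.mem_filter] at h1 h2 h3
  obtain ⟨b, w⟩ := y
  have hcne : ∀ s, c s ≠ 0 := by
    intro s h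
    apply hF0 s
    rw [hc s, h, zero_smul]
  -- the relations
  have hr : ∀ s, ((g s).1, (g s).2.1) = (b, w) →
      c s • W b w - W true v = C (c s * t (w, (g s).2.2) - t (v, s)) := by
    intro s hs
    have e1 : (g s).1 = b := congrArg Prod.fst hs
    have e2 : (g s).2.1 = w := congrArg Prod.snd hs
    have e3 := hc s
    simp only [hF] at e3
    rw [e1, e2] at e3
    have e4 : (g s).2 = (w, (g s).2.2) := by rw [← e2]
    rw [e4] at e3
    rw [map_sub, map_mul]
    rw [smul_sub, smul_eq_C_mul, smul_eq_C_mul] at e3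
    rw [smul_eq_C_mul]
    linear_combination -e3
  have r1 := hr s1 h1.2
  have r2 := hr s2 h2.2
  have r3 := hr s3 h3.2
  -- equal factors
  have heq : ∀ s s', c s • W b w - W true v = C (c s * t (w, (g s).2.2) - t (v, s)) →
      c s' • W b w - W true v = C (c s' * t (w, (g s').2.2) - t (v, s')) → c s = c s' := by
    intro s s' e e'
    by_contra hne
    have hd : c s - c s' ≠ 0 := sub_ne_zero.2 hne
    have e1 : (c s - c s') • W b w
        = C ((c s * t (w, (g s).2.2) - t (v, s)) - (c s' * t (w, (g s').2.2) - t (v, s'))) := by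
      rw [map_sub, ← e, ← e', sub_smul]; ring
    have e2 : W b w = C ((c s - c s')⁻¹ * ((c s * t (w, (g s).2.2) - t (v, s))
        - (c s' * t (w, (g s').2.2) - t (v, s')))) := by
      rw [map_mul, ← e1, ← smul_eq_C_mul, smul_smul, inv_mul_cancel₀ hd, one_smul]
    rw [e2, smul_eq_C_mul, ← map_mul] at e
    refine hv (c s * ((c s - c s')⁻¹ * ((c s * t (w, (g s).2.2) - t (v, s))
        - (c s' * t (w, (g s').2.2) - t (v, s')))) - (c s * t (w, (g s).2.2) - t (v, s))) ?_
    rw [map_sub]
    linear_combination -e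
  have c12 := heq s1 s2 r1 r2
  have c13 := heq s1 s3 r1 r3
  rw [← c12] at r2
  rw [← c13] at r3
  have k2 : c s1 * t (w, (g s2).2.2) - t (v, s2) = c s1 * t (w, (g s1).2.2) - t (v, s1) :=
    C_injective τ K (r2.symm.trans r1)
  have k3 : c s1 * t (w, (g s3).2.2) - t (v, s3) = c s1 * t (w, (g s1).2.2) - t (v, s1) :=
    C_injective τ K (r3.symm.trans r1)
  have hc1 := hcne s1
  obtain ⟨hl, hm⟩ := ht (c s1)⁻¹ ((c s1)⁻¹ * (c s1 * t (w, (g s1).2.2) - t (v, s1)))
    (inv_ne_zero hc1) (v, s1) (v, s2) (v, s3) (w, (g s1).2.2) (w, (g s2).2.2) (w, (g s3).2.2)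
    (fun h => h12 (Prod.ext_iff.1 h).2) (fun h => h13 (Prod.ext_iff.1 h).2)
    (fun h => h23 (Prod.ext_iff.1 h).2)
    (by field_simp; ring) (by rw [← k2]; field_simp; ring) (by rw [← k3]; field_simp; ring)
  have hcs : c s1 = 1 := inv_eq_one.1 hl
  rw [hcs, inv_one, one_mul, one_mul] at hm
  rw [hcs, one_smul, one_mul, hm, map_zero] at r1
  have hW : W b w = W true v := sub_eq_zero.1 r1
  have hwv : (w, (g s1).2.2) = (v, s1) := hinj (sub_eq_zero.1 hm)
  have ew : w = v := congrArg Prod.fst hwv
  have es : (g s1).2.2 = s1 := congrArg Prod.snd hwv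
  cases b with
  | false => rw [← hW, ew]
  | true =>
    exfalso
    apply hg s1
    have e1 : (g s1).1 = true := congrArg Prod.fst h1.2
    have e2 : (g s1).2.1 = v := (congrArg Prod.snd h1.2).trans ew
    exact Prod.ext e1 (Prod.ext e2 es)

/-- the linear form `x_0 + v x_1 + v ^ 2 x_2 + ...` -/
noncomputable def form {τ : Type*} {n : ℕ} (v : ℕ) (Z : Fin n → MvPolynomial τ K) :
    MvPolynomial τ K := ∑ j : Fin n, ((v : K) ^ (j : ℕ)) • Z j

/-- `n` of the forms are linearly independent. -/
theorem vand {τ : Type*} {n m : ℕ} (S : Finset (Fin m)) (hS : n ≤ S.card)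
    (D : Fin n → MvPolynomial τ K) (h : ∀ v ∈ S, form (v : ℕ) D = 0) : D = 0 := by
  classical
  let P : Polynomial (MvPolynomial τ K) := ∑ j : Fin n, Polynomial.C (D j) * Polynomial.X ^ (j : ℕ)
  rcases Nat.eq_zero_or_pos n with hn | hn
  · subst hn
    funext j; exact j.elim0
  have hdeg : P.natDegree < n := by
    refine lt_of_le_of_lt (Polynomial.natDegree_sum_le_of_forall_le (n := n - 1) _ _ fun j _ => ?_)
      (by omega)
    refine (Polynomial.natDegree_C_mul_X_pow_le _ _).trans ?_
    have := j.2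
    omega
  let pt : Fin m → MvPolynomial τ K := fun v => C ((v : ℕ) : K)
  have hpt : Function.Injective pt := by
    intro a b hab
    have := C_injective τ K hab
    exact Fin.ext (Nat.cast_injective this)
  have hev : ∀ v, P.eval (pt v) = form (v : ℕ) D := by
    intro v
    simp only [P, Polynomial.eval_finsetSum, form]
    refine Finset.sum_congr rfl fun j _ => ?_
    simp only [Polynomial.eval_mul, Polynomial.eval_C, Polynomial.eval_pow, Polynomial.eval_X, pt]
    rw [smul_eq_C_mul, map_pow, mul_comm]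
  have hP : P = 0 := by
    refine Polynomial.eq_zero_of_natDegree_lt_card_of_eval_eq_zero' P (S.image pt) ?_ ?_
    · intro x hx
      obtain ⟨v, hv, rfl⟩ := Finset.mem_image.1 hx
      rw [hev, h v hv]
    · rw [Finset.card_image_of_injective _ hpt]
      omega
  funext j
  have h1 := congrArg (fun p => Polynomial.coeff p (j : ℕ)) hP
  simp only [P, Polynomial.finsetSum_coeff, Polynomial.coeff_C_mul, Polynomial.coeff_X_pow,
    Polynomial.coeff_zero] at h1
  rw [Finset.sum_eq_single j] at h1
  · simpa using h1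
  · intro b _ hb
    rw [if_neg fun h => hb (Fin.ext h).symm, mul_zero]
  · intro h; exact absurd (Finset.mem_univ _) h

/-- **One polynomial determines all the homomorphisms with a non-constant image.** -/
theorem main (n : ℕ) (K : Type*) [Field K] [CharZero K] : ∃ p : MvPolynomial (Fin n) K,
    ∀ (τ : Type) (φ ψ : MvPolynomial (Fin n) K →ₐ[K] MvPolynomial τ K),
      (∃ f, ∀ c : K, φ f ≠ C c) → φ p = ψ p → φ = ψ := by
  classical
  set m := 2 * n with hm
  set q := 2 * m * 2 + 1 with hq
  obtain ⟨t, hinj, ht⟩ := exists_nodes K (Fin m × Fin q)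
  set N := (Fintype.card (Bool × (Fin m × Fin q))) ^ 2 with hN
  refine ⟨∑ e : Fin m × Fin q, (form (e.1 : ℕ) (fun j => X j) - C (t e)) ^ N, ?_⟩
  intro τ φ ψ ⟨f, hf⟩ hφψ
  have hmap : ∀ χ : MvPolynomial (Fin n) K →ₐ[K] MvPolynomial τ K,
      χ (∑ e : Fin m × Fin q, (form (e.1 : ℕ) (fun j => X j) - C (t e)) ^ N)
        = ∑ e : Fin m × Fin q, (form (e.1 : ℕ) (fun j => χ (X j)) - C (t e)) ^ N := by
    intro χ
    rw [map_sum]
    refine Finset.sum_congr rfl fun e _ => ?_
    rw [map_pow, map_sub]
    congr 2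
    · simp only [form, map_sum, map_smul]
    · exact χ.commutes _
  rw [hmap, hmap] at hφψ
  have hkey : ∀ v : Fin m, (∀ c : K, form (v : ℕ) (fun j => φ (X j)) ≠ C c) →
      form (v : ℕ) (fun j => φ (X j)) = form (v : ℕ) (fun j => ψ (X j)) := by
    intro v hv
    exact key (fun b v => if b = true then form (v : ℕ) (fun j => φ (X j))
      else form (v : ℕ) (fun j => ψ (X j))) t hinj ht (by omega) N le_rfl (by simpa using hφψ) v
      (by simpa using hv)
  set S : Finset (Fin m) := univ.filter fun v => ∀ c : K, form (v : ℕ) (fun j => φ (X j)) ≠ C c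
    with hS
  have hScard : n ≤ S.card := by
    by_contra hcon
    push Not at hcon
    have hc : n ≤ (Sᶜ).card := by
      rw [Finset.card_compl, Fintype.card_fin]
      omega
    have h1 := vand Sᶜ hc (fun j => φ (X j) - C (constantCoeff (φ (X j)))) (by
      intro v hv
      rw [Finset.mem_compl, hS, Finset.mem_filter] at hv
      push Not at hv
      obtain ⟨c, hcv⟩ := hv (Finset.mem_univ _)
      have h2 : form (v : ℕ) (fun j => φ (X j) - C (constantCoeff (φ (X j))))
          = form (v : ℕ) (fun j => φ (X j))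
            - C (constantCoeff (form (v : ℕ) (fun j => φ (X j)))) := by
        simp only [form, smul_sub, Finset.sum_sub_distrib, map_sum]
        congr 1
        refine Finset.sum_congr rfl fun j _ => ?_
        rw [smul_eq_C_mul, smul_eq_C_mul, map_mul, map_mul, constantCoeff_C]
      rw [h2, hcv, constantCoeff_C, sub_self])
    -- all the images are constant
    apply hf (eval (fun j => constantCoeff (φ (X j))) f)
    have h3 : φ = (Algebra.ofId K (MvPolynomial τ K)).comp
        (aeval fun j => constantCoeff (φ (X j))) := by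
      refine MvPolynomial.algHom_ext fun j => ?_
      have h4 := congrFun h1 j
      simp only [Pi.zero_apply] at h4
      rw [sub_eq_zero] at h4
      rw [AlgHom.comp_apply, aeval_X, Algebra.ofId_apply]
      exact h4
    conv_lhs => rw [h3]
    rw [AlgHom.comp_apply, Algebra.ofId_apply]
    rfl
  have h1 := vand S hScard (fun j => φ (X j) - ψ (X j)) (by
    intro v hv
    have h2 := hkey v (Finset.mem_filter.1 hv).2
    have h3 : form (v : ℕ) (fun j => φ (X j) - ψ (X j))
        = form (v : ℕ) (fun j => φ (X j)) - form (v : ℕ) (fun j => ψ (X j)) := by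
      simp only [form, smul_sub, Finset.sum_sub_distrib]
    rw [h3, h2, sub_self])
  refine MvPolynomial.algHom_ext fun j => ?_
  have := congrFun h1 j
  exact sub_eq_zero.1 this

end Pool.Agent.X19.DP
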