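import Pool.Agent.X19.DP.Wron

/-!
Independence of high powers of pairwise non-proportional polynomials in many variables, and the
rigid nodes.
-/

set_option autoImplicit false

open Finset MvPolynomial

namespace Pool.Agent.X19.DP

variable {K : Type*} [Field K] [CharZero K]

theorem mv_pow_indep {σ : Type*} {k : ℕ} (f : Fin k → MvPolynomial σ K) (N : ℕ) (hN : k ^ 2 ≤ N)
    (h0 : ∀ i, f i ≠ 0) (h : ∀ i j, i ≠ j → ∀ c : K, f i ≠ c • f j) :
    LinearIndependent K (fun i => f i ^ N) := by
  classical
  -- two points at which the polynomials are not proportional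
  let ι1 : MvPolynomial σ K →ₐ[K] MvPolynomial (σ ⊕ σ) K := rename Sum.inl
  let ι2 : MvPolynomial σ K →ₐ[K] MvPolynomial (σ ⊕ σ) K := rename Sum.inr
  let R : Fin k → Fin k → MvPolynomial (σ ⊕ σ) K := fun i j =>
    if i = j then ι1 (f i) else ι1 (f i) * ι2 (f j) - ι2 (f i) * ι1 (f j)
  have hev1 : ∀ (z : σ ⊕ σ → K) (p : MvPolynomial σ K), eval z (ι1 p) = eval (z ∘ Sum.inl) p := by
    intro z p; exact eval_rename _ _ _
  have hev2 : ∀ (z : σ ⊕ σ → K) (p : MvPolynomial σ K), eval z (ι2 p) = eval (z ∘ Sum.inr) p := by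
    intro z p; exact eval_rename _ _ _
  have hpt : ∀ {τ : Type _} (p : MvPolynomial τ K), p ≠ 0 → ∃ z, eval z p ≠ 0 := by
    intro τ p hp
    by_contra hcon
    push Not at hcon
    exact hp (MvPolynomial.funext fun z => by rw [hcon z, map_zero])
  have hR : ∀ i j, R i j ≠ 0 := by
    intro i j
    by_cases hij : i = j
    · simp only [R, if_pos hij]
      intro hz
      have : Function.Injective ι1 := rename_injective _ Sum.inl_injective
      exact h0 i (this (by rw [hz, map_zero]))
    · simp only [R, if_neg hij]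
      intro hz
      obtain ⟨b, hb⟩ := hpt (f j) (h0 j)
      apply h i j hij (eval b (f i) / eval b (f j))
      refine MvPolynomial.funext fun a => ?_
      have h1 := congrArg (eval (Sum.elim a b)) hz
      rw [map_sub, map_mul, map_mul, hev1, hev1, hev2, hev2, map_zero] at h1
      have ea : (Sum.elim a b) ∘ Sum.inl = a := rfl
      have eb : (Sum.elim a b) ∘ Sum.inr = b := rfl
      rw [ea, eb] at h1
      rw [smul_eval]
      field_simp
      linear_combination h1
  obtain ⟨z, hz⟩ := hpt (∏ i, ∏ j, R i j)
    (Finset.prod_ne_zero_iff.2 fun i _ => Finset.prod_ne_zero_iff.2 fun j _ => hR i j)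
  rw [map_prod] at hz
  have hz' : ∀ i j, eval z (R i j) ≠ 0 := by
    intro i j
    have h1 := Finset.prod_ne_zero_iff.1 hz i (Finset.mem_univ _)
    rw [map_prod] at h1
    exact Finset.prod_ne_zero_iff.1 h1 j (Finset.mem_univ _)
  set a : σ → K := z ∘ Sum.inl with ha
  set b : σ → K := z ∘ Sum.inr with hb
  let φ : MvPolynomial σ K →ₐ[K] Polynomial K :=
    aeval (fun s => Polynomial.C (a s) + Polynomial.X * Polynomial.C (b s - a s))
  have e0 : ∀ p, Polynomial.eval 0 (φ p) = eval a p := by
    intro p
    have : (Polynomial.evalRingHom (0 : K)).comp φ.toRingHom = eval a := by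
      apply MvPolynomial.ringHom_ext
      · intro r; simp [φ]
      · intro s; simp [φ]
    exact congrArg (fun g : MvPolynomial σ K →+* K => g p) this
  have e1 : ∀ p, Polynomial.eval 1 (φ p) = eval b p := by
    intro p
    have : (Polynomial.evalRingHom (1 : K)).comp φ.toRingHom = eval b := by
      apply MvPolynomial.ringHom_ext
      · intro r; simp [φ]
      · intro s; simp [φ]
    exact congrArg (fun g : MvPolynomial σ K →+* K => g p) this
  have hne : ∀ i, φ (f i) ≠ 0 := by
    intro i hzero
    have h1 := hz' i i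
    simp only [R, if_true] at h1
    rw [hev1] at h1
    apply h1
    rw [← ha, ← e0, hzero, Polynomial.eval_zero]
  have hpr : ∀ i j, i ≠ j → ∀ c : K, φ (f i) ≠ Polynomial.C c * φ (f j) := by
    intro i j hij c hc
    have h1 := hz' i j
    simp only [R, if_neg hij] at h1
    apply h1
    rw [map_sub, map_mul, map_mul, hev1, hev1, hev2, hev2, ← ha, ← hb, ← e0, ← e0, ← e1, ← e1, hc]
    simp only [Polynomial.eval_mul, Polynomial.eval_C]
    ring
  have hli := pow_indep k (fun i => φ (f i)) N hN hne hpr
  refine LinearIndependent.of_comp φ.toLinearMap ?_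
  have hfun : (φ.toLinearMap ∘ fun i => f i ^ N) = fun i => φ (f i) ^ N := by
    funext i; simp
  rw [hfun]
  exact hli

/-- If the `N`-th power of a member of a family is a combination of the `N`-th powers of the other
ones, then some other member is proportional to it. -/
theorem exists_proportional {σ J : Type*} [Fintype J] (F : J → MvPolynomial σ K) (N : ℕ)
    (hN : (Fintype.card J) ^ 2 ≤ N) (j0 : J) (h0 : F j0 ≠ 0)
    (hs : F j0 ^ N ∈ Submodule.span K ((fun j => F j ^ N) '' {j | j ≠ j0})) :
    ∃ j, j ≠ j0 ∧ ∃ c : K, F j0 = c • F j := by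
  classical
  by_contra hcon
  push Not at hcon
  have hex : ∃ n, ∃ U : Finset J, j0 ∉ U ∧ U.card = n ∧
      F j0 ^ N ∈ Submodule.span K ((fun j => F j ^ N) '' (U : Set J)) := by
    refine ⟨_, univ.erase j0, by simp, rfl, ?_⟩
    convert hs using 3
    ext j; simp
  obtain ⟨U, hjU, hcard, hmem⟩ := Nat.find_spec hex
  have hmin : ∀ V : Finset J, j0 ∉ V → V.card < U.card →
      F j0 ^ N ∉ Submodule.span K ((fun j => F j ^ N) '' (V : Set J)) := by
    intro V hV hlt hm
    rw [hcard] at hlt
    exact Nat.find_min hex hlt ⟨V, hV, rfl, hm⟩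
  -- replacing `U` by `U.erase j`
  have herase : ∀ j ∈ U, ¬ (F j ^ N ∈ Submodule.span K
      ((fun j => F j ^ N) '' ((U.erase j : Finset J) : Set J))) := by
    intro j hj hspan
    refine hmin (U.erase j) (fun h => hjU (Finset.mem_of_mem_erase h))
      (Finset.card_erase_lt_of_mem hj) ?_
    refine Submodule.span_le.2 ?_ hmem
    rintro _ ⟨i, hi, rfl⟩
    rcases eq_or_ne i j with rfl | hij
    · exact hspan
    · exact Submodule.subset_span ⟨i, by
        rw [Finset.mem_coe, Finset.mem_erase]; exact ⟨hij, hi⟩, rfl⟩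
  have hNpos : N ≠ 0 := by
    have : 1 ≤ Fintype.card J := Fintype.card_pos_iff.2 ⟨j0⟩
    have : 1 ≤ (Fintype.card J) ^ 2 := Nat.one_le_pow _ _ this
    omega
  have hUne : ∀ j ∈ U, F j ≠ 0 := by
    intro j hj hz
    apply herase j hj
    rw [hz, zero_pow hNpos]
    exact Submodule.zero_mem _
  have hUpr : ∀ i ∈ U, ∀ j ∈ U, i ≠ j → ∀ c : K, F i ≠ c • F j := by
    intro i hi j hj hij c hc
    apply herase i hi
    rw [hc, smul_pow]
    refine Submodule.smul_mem _ _ (Submodule.subset_span ⟨j, ?_, rfl⟩)
    rw [Finset.mem_coe, Finset.mem_erase]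
    exact ⟨hij.symm, hj⟩
  -- the family indexed by `insert j0 U`
  set V := insert j0 U with hV
  let e := V.equivFin
  have hcV : V.card ^ 2 ≤ N :=
    (Nat.pow_le_pow_left (Finset.card_le_univ _) 2).trans hN
  have hli : LinearIndependent K (fun i : Fin V.card => F (e.symm i).1 ^ N) := by
    refine mv_pow_indep (fun i => F (e.symm i).1) N hcV ?_ ?_
    · intro i
      rcases Finset.mem_insert.1 (e.symm i).2 with h | h
      · rw [h]; exact h0
      · exact hUne _ h
    · intro i j hij c hc
      have hne : (e.symm i).1 ≠ (e.symm j).1 := fun h => hij (e.symm.injective (Subtype.ext h))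
      rcases Finset.mem_insert.1 (e.symm i).2 with h | h
      · rcases Finset.mem_insert.1 (e.symm j).2 with h' | h'
        · exact hne (h.trans h'.symm)
        · rw [h] at hc hne
          exact hcon _ hne.symm c hc
      · rcases Finset.mem_insert.1 (e.symm j).2 with h' | h'
        · rw [h'] at hc hne
          -- F i = c F j0
          have hc0 : c ≠ 0 := by
            rintro rfl
            rw [zero_smul] at hc
            exact hUne _ h hc
          apply hcon _ hne c⁻¹
          rw [hc, smul_smul, inv_mul_cancel₀ hc0, one_smul]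
        · exact hUpr _ h _ h' hne c hc
  have hli2 : LinearIndependent K (fun i : V => F i.1 ^ N) := by
    have := hli.comp e e.injective
    convert this using 2 with i
    simp
  have h1 := hli2.notMem_span_image (s := {i : V | i.1 ∈ U}) (x := ⟨j0, Finset.mem_insert_self _ _⟩)
    (by simpa using hjU)
  apply h1
  convert hmem using 2
  ext y
  constructor
  · rintro ⟨i, hi, rfl⟩
    exact ⟨i.1, hi, rfl⟩
  · rintro ⟨i, hi, rfl⟩
    exact ⟨⟨i, Finset.mem_insert_of_mem hi⟩, hi, rfl⟩

/-- **Rigid nodes.** For every finite set there is an injective family of elements of the field such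
that only the identity, among the affine maps, maps three of them to elements of the family. -/
theorem exists_nodes (K : Type*) [Field K] [CharZero K] (E : Type*) [Fintype E] :
    ∃ t : E → K, Function.Injective t ∧
      ∀ (lam mu : K), lam ≠ 0 → ∀ a1 a2 a3 b1 b2 b3 : E, a1 ≠ a2 → a1 ≠ a3 → a2 ≠ a3 →
        t b1 = lam * t a1 + mu → t b2 = lam * t a2 + mu → t b3 = lam * t a3 + mu →
        lam = 1 ∧ mu = 0 := by
  classical
  have hpt : ∀ (p : MvPolynomial E K), p ≠ 0 → ∃ z, eval z p ≠ 0 := by
    intro p hp
    by_contra hcon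
    push Not at hcon
    exact hp (MvPolynomial.funext fun z => by rw [hcon z, map_zero])
  let D : MvPolynomial E K := ∏ q : E × E, if q.1 = q.2 then 1 else X q.1 - X q.2
  let Q : (Fin 3 → E) × (Fin 3 → E) → MvPolynomial E K := fun q =>
    (X (q.2 0) - X (q.2 1)) * (X (q.1 0) - X (q.1 2))
      - (X (q.2 0) - X (q.2 2)) * (X (q.1 0) - X (q.1 1))
  let G : MvPolynomial E K := ∏ q : (Fin 3 → E) × (Fin 3 → E),
    if Function.Injective q.1 ∧ Function.Injective q.2 ∧ q.1 0 ≠ q.2 0 then Q q else 1
  have hD : D ≠ 0 := by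
    refine Finset.prod_ne_zero_iff.2 fun q _ => ?_
    split_ifs with h
    · exact one_ne_zero
    · rw [sub_ne_zero]
      exact fun h' => h (X_injective h')
  have hG : G ≠ 0 := by
    refine Finset.prod_ne_zero_iff.2 fun q _ => ?_
    split_ifs with h
    · obtain ⟨ha, hb, hab⟩ := h
      have a01 : q.1 0 ≠ q.1 1 := fun h => by simpa using ha h
      have a02 : q.1 0 ≠ q.1 2 := fun h => by simpa using ha h
      have a12 : q.1 1 ≠ q.1 2 := fun h => by simpa using ha h
      have b01 : q.2 0 ≠ q.2 1 := fun h => by simpa using hb h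
      have b02 : q.2 0 ≠ q.2 2 := fun h => by simpa using hb h
      have b12 : q.2 1 ≠ q.2 2 := fun h => by simpa using hb h
      intro hz
      by_cases c1 : q.2 1 = q.1 0
      · have h1 := congrArg (eval (fun e => if e = q.1 0 then (1 : K) else 0)) hz
        simp only [Q, map_sub, map_mul, eval_X, map_zero] at h1
        have c3 : q.2 2 ≠ q.1 0 := fun h => b12 (c1.trans h.symm)
        simp only [hab.symm, c1, a02.symm, a01.symm, c3, if_true, if_false] at h1
        norm_num at h1
      · by_cases c2 : q.2 2 = q.1 0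
        · have h1 := congrArg (eval (fun e => if e = q.1 0 then (1 : K) else 0)) hz
          simp only [Q, map_sub, map_mul, eval_X, map_zero] at h1
          simp only [hab.symm, c1, a02.symm, a01.symm, c2, if_true, if_false] at h1
          norm_num at h1
        · have h1 := congrArg (eval (fun e => if e = q.1 0 then (1 : K) else
            if e = q.2 1 then 2 else 0)) hz
          simp only [Q, map_sub, map_mul, eval_X, map_zero] at h1
          simp only [hab.symm, b01, c1, a02.symm, a01.symm, c2, b12.symm, if_true, if_false] at h1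
          by_cases d1 : q.1 1 = q.2 1
          · have d3 : q.1 2 ≠ q.2 1 := fun h => a12 (d1.trans h.symm)
            simp only [d1, d3, if_true, if_false] at h1
            norm_num at h1
          · by_cases d2 : q.1 2 = q.2 1
            · simp only [d1, d2, if_true, if_false] at h1
              norm_num at h1
            · simp only [d1, d2, if_true, if_false] at h1
              norm_num at h1
    · exact one_ne_zero
  obtain ⟨t, ht⟩ := hpt (D * G) (mul_ne_zero hD hG)
  rw [map_mul] at ht
  have htD := left_ne_zero_of_mul ht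
  have htG := right_ne_zero_of_mul ht
  have hinj : Function.Injective t := by
    intro x y hxy
    by_contra hne
    rw [map_prod] at htD
    have h1 := Finset.prod_ne_zero_iff.1 htD (x, y) (Finset.mem_univ _)
    simp only [if_neg hne, map_sub, eval_X] at h1
    exact h1 (sub_eq_zero.2 hxy)
  have hQ : ∀ a b : Fin 3 → E, Function.Injective a → Function.Injective b → a 0 ≠ b 0 →
      (t (b 0) - t (b 1)) * (t (a 0) - t (a 2)) - (t (b 0) - t (b 2)) * (t (a 0) - t (a 1)) ≠ 0 := by
    intro a b ha hb hab
    rw [map_prod] at htG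
    have h1 := Finset.prod_ne_zero_iff.1 htG (a, b) (Finset.mem_univ _)
    have hcond : Function.Injective (a, b).1 ∧ Function.Injective (a, b).2 ∧
      (a, b).1 0 ≠ (a, b).2 0 := ⟨ha, hb, hab⟩
    rw [if_pos hcond] at h1
    simpa only [Q, map_sub, map_mul, eval_X] using h1
  -- triples
  have inj3 : ∀ x y z : E, x ≠ y → x ≠ z → y ≠ z → Function.Injective ![x, y, z] := by
    intro x y z h1 h2 h3 i j hij
    fin_cases i <;> fin_cases j <;> simp_all
  refine ⟨t, hinj, ?_⟩
  intro lam mu hlam a1 a2 a3 b1 b2 b3 h12 h13 h23 e1 e2 e3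
  have b12 : b1 ≠ b2 := by
    rintro rfl
    apply h12; apply hinj
    apply mul_left_cancel₀ hlam
    linear_combination e2 - e1
  have b13 : b1 ≠ b3 := by
    rintro rfl
    apply h13; apply hinj
    apply mul_left_cancel₀ hlam
    linear_combination e3 - e1
  have b23 : b2 ≠ b3 := by
    rintro rfl
    apply h23; apply hinj
    apply mul_left_cancel₀ hlam
    linear_combination e3 - e2
  have k1 : a1 = b1 := by
    by_contra hne
    apply hQ ![a1, a2, a3] ![b1, b2, b3] (inj3 _ _ _ h12 h13 h23) (inj3 _ _ _ b12 b13 b23)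
      (by simpa using hne)
    simp only [Matrix.cons_val_zero, Matrix.cons_val_one, Matrix.cons_val]
    rw [e1, e2, e3]; ring
  have k2 : a2 = b2 := by
    by_contra hne
    apply hQ ![a2, a1, a3] ![b2, b1, b3] (inj3 _ _ _ h12.symm h23 h13) (inj3 _ _ _ b12.symm b23 b13)
      (by simpa using hne)
    simp only [Matrix.cons_val_zero, Matrix.cons_val_one, Matrix.cons_val]
    rw [e1, e2, e3]; ring
  subst k1 k2
  have hl : lam = 1 := by
    have h1 : (lam - 1) * (t a1 - t a2) = 0 := by linear_combination e2 - e1
    rcases mul_eq_zero.1 h1 with h | h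
    · linear_combination h
    · exact absurd (hinj (sub_eq_zero.1 h)) h12
  refine ⟨hl, ?_⟩
  rw [hl] at e1
  linear_combination -e1

end Pool.Agent.X19.DP
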