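import Mathlib

/-!
Wronskians over a field of characteristic zero, and: high powers of pairwise non-proportional
polynomials in one variable are linearly independent.
(The first three lemmas are those of `Pool.Agent.H322R2.Wronsk`, over a general field.)
-/

set_option autoImplicit false

open Polynomial Finset

namespace Pool.Agent.X19.DP

variable {K : Type*} [Field K] [CharZero K]

lemma ratio_const (f g : K[X]) (hg : g ≠ 0) (h : g * derivative f = f * derivative g) :
    ∃ c : K, f = C c * g := by
  classical
  set d := EuclideanDomain.gcd f g with hd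
  have hd0 : d ≠ 0 := by
    intro h0
    exact hg (EuclideanDomain.gcd_eq_zero_iff.1 h0).2
  obtain ⟨f1, hf1⟩ := EuclideanDomain.gcd_dvd_left f g
  obtain ⟨g1, hg1⟩ := EuclideanDomain.gcd_dvd_right f g
  rw [← hd] at hf1 hg1
  have hcop : IsCoprime f1 g1 := by
    obtain ⟨a, b, hab⟩ : ∃ a b, d = f * a + g * b :=
      ⟨_, _, EuclideanDomain.gcd_eq_gcd_ab f g⟩
    refine ⟨a, b, ?_⟩
    have : d * (a * f1 + b * g1) = d * 1 := by
      rw [mul_one]
      calc d * (a * f1 + b * g1) = (d * f1) * a + (d * g1) * b := by ring
        _ = f * a + g * b := by rw [← hf1, ← hg1]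
        _ = d := hab.symm
    exact mul_left_cancel₀ hd0 this
  have hw : wronskian f1 g1 = 0 := by
    have h2 : d ^ 2 * wronskian f1 g1 = 0 := by
      have h3 : f * derivative g - derivative f * g = 0 := by rw [← h]; ring
      rw [hf1, hg1] at h3
      simp only [derivative_mul] at h3
      unfold wronskian
      linear_combination h3
    rcases mul_eq_zero.1 h2 with h3 | h3
    · exact absurd (pow_eq_zero_iff (two_ne_zero)|>.1 h3) hd0
    · exact h3
  have hw2 := (IsCoprime.wronskian_eq_zero_iff hcop).1 hw
  have hf2 := derivative_eq_zero.1 hw2.1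
  have hg2 := derivative_eq_zero.1 hw2.2
  rw [natDegree_eq_zero] at hf2 hg2
  obtain ⟨x, hx⟩ := hf2
  obtain ⟨y, hy⟩ := hg2
  have hy0 : y ≠ 0 := by
    rintro rfl
    apply hg
    rw [hg1, ← hy]; simp
  refine ⟨x / y, ?_⟩
  rw [hf1, hg1, ← hx, ← hy]
  have : C (x / y) * C y = (C x : K[X]) := by
    rw [← C_mul, div_mul_cancel₀ _ hy0]
  rw [← this]; ring

open Classical in
lemma dep_of_rel {r : ℕ} (f : Fin r → K[X]) : ∀ s : ℕ, ∀ v : Fin r → K[X], v ≠ 0 →
    (univ.filter (fun j => v j ≠ 0)).card ≤ s →
    (∀ i < s, ∑ j, v j * derivative^[i] (f j) = 0) → ¬ LinearIndependent K f := by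
  classical
  intro s
  induction s with
  | zero =>
    intro v hv hcard _
    exfalso
    apply hv
    have h0 : (univ.filter (fun j => v j ≠ 0)) = ∅ := Finset.card_eq_zero.1 (Nat.le_zero.1 hcard)
    funext j
    by_contra hj
    have : j ∈ (univ.filter (fun j => v j ≠ 0)) := by
      rw [Finset.mem_filter]; exact ⟨Finset.mem_univ _, hj⟩
    rw [h0] at this
    exact absurd this (Finset.notMem_empty _)
  | succ s ih =>
    intro v hv hcard hrel
    obtain ⟨j0, hj0⟩ : ∃ j0, v j0 ≠ 0 := by
      by_contra hcon
      push Not at hcon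
      exact hv (funext hcon)
    set v' : Fin r → K[X] := fun j => v j0 * derivative (v j) - v j * derivative (v j0) with hv'
    by_cases hz : v' = 0
    · have h1 : ∀ j, ∃ c : K, v j = C c * v j0 := by
        intro j
        apply ratio_const _ _ hj0
        have := congrFun hz j
        simp only [hv', Pi.zero_apply] at this
        linear_combination this
      choose c hc using h1
      have hc0 : c j0 = 1 := by
        have := hc j0
        have h2 : (C (c j0) - 1) * v j0 = 0 := by linear_combination -this
        rcases mul_eq_zero.1 h2 with h3 | h3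
        · have h4 : C (c j0) = (C 1 : K[X]) := by rw [C_1]; linear_combination h3
          exact C_injective h4
        · exact absurd h3 hj0
      intro hli
      rw [Fintype.linearIndependent_iff] at hli
      have h2 : ∑ j, c j • f j = 0 := by
        have h3 := hrel 0 (Nat.succ_pos s)
        simp only [Function.iterate_zero, id_eq] at h3
        have h4 : v j0 * ∑ j, c j • f j = 0 := by
          rw [← h3, Finset.mul_sum]
          apply Finset.sum_congr rfl
          intro j _
          conv_rhs => rw [hc j]
          rw [smul_eq_C_mul]; ring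
        rcases mul_eq_zero.1 h4 with h5 | h5
        · exact absurd h5 hj0
        · exact h5
      have := hli c h2 j0
      rw [hc0] at this
      exact one_ne_zero this
    · apply ih v' hz
      · have hsub : (univ.filter (fun j => v' j ≠ 0)) ⊆ (univ.filter (fun j => v j ≠ 0)).erase j0 := by
          intro j hj
          rw [Finset.mem_filter] at hj
          rw [Finset.mem_erase, Finset.mem_filter]
          refine ⟨?_, Finset.mem_univ _, ?_⟩
          · rintro rfl
            apply hj.2
            simp only [hv']; ring
          · intro h0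
            apply hj.2
            simp only [hv', h0]; simp
        have h1 := Finset.card_le_card hsub
        rw [Finset.card_erase_of_mem (by rw [Finset.mem_filter]; exact ⟨Finset.mem_univ _, hj0⟩)] at h1
        omega
      · intro i hi
        have e1 := hrel i (by omega)
        have e2 := hrel (i + 1) (by omega)
        have e3 : derivative (∑ j, v j * derivative^[i] (f j)) = 0 := by rw [e1, derivative_zero]
        rw [derivative_sum] at e3
        simp only [derivative_mul, Finset.sum_add_distrib] at e3
        have e4 : ∑ j, v j * derivative (derivative^[i] (f j)) = 0 := by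
          rw [← e2]
          apply Finset.sum_congr rfl
          intro j _
          rw [Function.iterate_succ_apply']
        rw [e4, add_zero] at e3
        have e5 : ∑ j, v' j * derivative^[i] (f j)
            = v j0 * ∑ j, derivative (v j) * derivative^[i] (f j)
              - derivative (v j0) * ∑ j, v j * derivative^[i] (f j) := by
          rw [Finset.mul_sum, Finset.mul_sum, ← Finset.sum_sub_distrib]
          apply Finset.sum_congr rfl
          intro j _
          simp only [hv']; ring
        rw [e5, e3, e1]; ring

/-- Wronskian matrix -/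
noncomputable def wmat {r : ℕ} (f : Fin r → K[X]) : Matrix (Fin r) (Fin r) K[X] :=
  Matrix.of fun i j => derivative^[(i : ℕ)] (f j)

lemma wmat_det_ne_zero {r : ℕ} (f : Fin r → K[X]) (hf : LinearIndependent K f) :
    (wmat f).det ≠ 0 := by
  intro h0
  obtain ⟨v, hv0, hv⟩ := Matrix.exists_mulVec_eq_zero_iff.2 h0
  refine dep_of_rel f r v hv0 ?_ ?_ hf
  · classical
    exact (Finset.card_le_univ _).trans (by simp)
  · intro i hi
    have := congrFun hv ⟨i, hi⟩
    simp only [Matrix.mulVec, dotProduct, wmat, Matrix.of_apply, Pi.zero_apply] at this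
    rw [← this]
    apply Finset.sum_congr rfl
    intro j _
    ring

omit [CharZero K] in
lemma dvd_iter (f : K[X]) (N s r : ℕ) (hs : s < r) :
    f ^ (N + 1 - r) ∣ derivative^[s] (f ^ N) := by
  have h := pow_sub_dvd_iterate_derivative_of_pow_dvd (p := f ^ N) (q := f) (n := N) s dvd_rfl
  exact (pow_dvd_pow f (by omega)).trans h

omit [CharZero K] in
lemma prod_dvd_det {r : ℕ} (M : Matrix (Fin r) (Fin r) K[X]) (d : Fin r → K[X])
    (h : ∀ i j, d j ∣ M i j) : (∏ j, d j) ∣ M.det := by
  choose V hV using h
  have : M = Matrix.of fun i j => d j * V i j := by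
    ext i j
    rw [Matrix.of_apply, ← hV]
  have h2 := Matrix.det_mul_row d (Matrix.of V)
  simp only [Matrix.of_apply] at h2
  rw [this, h2]
  exact dvd_mul_right _ _

omit [CharZero K] in
lemma natDegree_det_le' {r : ℕ} (M : Matrix (Fin r) (Fin r) K[X]) (d : Fin r → ℕ)
    (h : ∀ i j, (M i j).natDegree ≤ d j) : M.det.natDegree ≤ ∑ j, d j := by
  rw [Matrix.det_apply]
  refine natDegree_sum_le_of_forall_le _ _ fun σ _ => ?_
  refine (natDegree_smul_le _ _).trans ?_
  refine (natDegree_prod_le _ _).trans ?_
  exact Finset.sum_le_sum fun j _ => h _ _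

/-- The main step: a relation between the `N`-th powers of `r + 2` polynomials without common
divisor, all coefficients nonzero, no relation between fewer of them. -/
lemma degree_step {r : ℕ} (h : Fin (r + 1) → K[X]) (N : ℕ) (hN : (r + 1) ^ 2 ≤ N)
    (hspan : Ideal.span (Set.range h) = ⊤)
    (hne : ∀ i, h i ≠ 0)
    (c : Fin (r + 1) → K) (hc : ∀ i, c i ≠ 0)
    (hrel : ∑ i, C (c i) * h i ^ N = 0)
    (hli : ∀ m : Fin (r + 1), LinearIndependent K (fun j => h (m.succAbove j) ^ N)) :
    ∀ i, (h i).natDegree = 0 := by
  classical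
  obtain ⟨m, hm⟩ := Finite.exists_max (fun i => (h i).natDegree)
  set L := N + 1 - r with hL
  set F : Fin r → K[X] := fun j => h (m.succAbove j) ^ N with hF
  set A := wmat F with hA
  have hdet : A.det ≠ 0 := wmat_det_ne_zero F (hli m)
  set b : Fin r → K[X] := fun i => derivative^[(i : ℕ)] (h m ^ N) with hb
  set x : Fin r → K[X] := fun j => C (-(c (m.succAbove j)) / c m) with hx
  have hAx : A.mulVec x = b := by
    funext s
    have h1 : ∑ i, C (c i) * derivative^[(s : ℕ)] (h i ^ N) = 0 := by
      have h2 := congrArg (fun p => derivative^[(s : ℕ)] p) hrel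
      simp only [iterate_derivative_sum, iterate_derivative_zero] at h2
      rw [← h2]
      refine Finset.sum_congr rfl fun i _ => ?_
      rw [iterate_derivative_C_mul]
    rw [Fin.sum_univ_succAbove _ m] at h1
    have hcm : C (c m) ≠ (0 : K[X]) := by
      rw [Ne, C_eq_zero]; exact hc m
    apply mul_left_cancel₀ hcm
    simp only [Matrix.mulVec, dotProduct, hA, wmat, Matrix.of_apply, hF, hx, hb]
    rw [Finset.mul_sum]
    have h3 : C (c m) * derivative^[(s : ℕ)] (h m ^ N)
        = - ∑ j, C (c (m.succAbove j)) * derivative^[(s : ℕ)] (h (m.succAbove j) ^ N) := by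
      linear_combination h1
    rw [h3, ← Finset.sum_neg_distrib]
    refine Finset.sum_congr rfl fun j _ => ?_
    have h4 : C (c m) * C (-(c (m.succAbove j)) / c m) = - C (c (m.succAbove j)) := by
      rw [← C_mul, mul_div_cancel₀ _ (hc m), C_neg]
    linear_combination derivative^[(s : ℕ)] (h (m.succAbove j) ^ N) * h4
  have hcr : ∀ j, (A.updateCol j b).det = A.det * x j := by
    intro j
    have h1 : A.cramer b = A.det • x := by
      rw [Matrix.cramer_eq_adjugate_mulVec, ← hAx, Matrix.mulVec_mulVec, Matrix.adjugate_mul,
        Matrix.smul_mulVec, Matrix.one_mulVec]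
    have h2 := congrFun h1 j
    rw [Matrix.cramer_apply] at h2
    rw [h2]; rfl
  have hxu : ∀ j, IsUnit (x j) := by
    intro j
    refine isUnit_C.2 (isUnit_iff_ne_zero.2 ?_)
    exact div_ne_zero (neg_ne_zero.2 (hc _)) (hc _)
  -- divisibility
  have hdiv : ∀ i, (∏ i, h i) ^ L ∣ A.det * h i ^ L := by
    intro i
    have hP : (∏ i, h i) ^ L = h m ^ L * ∏ j, h (m.succAbove j) ^ L := by
      rw [Fin.prod_univ_succAbove _ m, mul_pow, Finset.prod_pow]
    rw [hP]
    rcases eq_or_ne i m with rfl | him
    · rw [mul_comm]
      refine mul_dvd_mul_right ?_ _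
      refine prod_dvd_det A _ fun s j => ?_
      simp only [hA, wmat, Matrix.of_apply, hF]
      exact dvd_iter _ _ _ _ s.2
    · obtain ⟨j, rfl⟩ := Fin.exists_succAbove_eq him
      have h1 : (∏ l, Function.update (fun l => h (m.succAbove l) ^ L) j (h m ^ L) l)
          ∣ (A.updateCol j b).det := by
        refine prod_dvd_det _ _ fun s l => ?_
        rcases eq_or_ne l j with rfl | hl
        · rw [Function.update_self, Matrix.updateCol_self]
          simp only [hb]
          exact dvd_iter _ _ _ _ s.2
        · rw [Function.update_of_ne hl, Matrix.updateCol_ne hl]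
          simp only [hA, wmat, Matrix.of_apply, hF]
          exact dvd_iter _ _ _ _ s.2
      rw [hcr j] at h1
      have h2 := (hxu j).dvd_mul_right.1 h1
      rw [Finset.prod_update_of_mem (Finset.mem_univ j)] at h2
      have h3 := mul_dvd_mul_right h2 (h (m.succAbove j) ^ L)
      refine dvd_trans (dvd_of_eq ?_) h3
      rw [← Finset.mul_prod_erase univ (fun l => h (m.succAbove l) ^ L) (Finset.mem_univ j),
        Finset.sdiff_singleton_eq_erase]
      ring
  have hfull : (∏ i, h i) ^ L ∣ A.det := by
    let I : Ideal K[X] :=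
      { carrier := {y | (∏ i, h i) ^ L ∣ A.det * y}
        add_mem' := fun {a b} ha hb => by
          simp only [Set.mem_ofPred_eq] at ha hb ⊢
          rw [mul_add]; exact dvd_add ha hb
        zero_mem' := by simp
        smul_mem' := fun c a ha => by
          simp only [Set.mem_ofPred_eq, smul_eq_mul] at ha ⊢
          rw [mul_left_comm]; exact Dvd.dvd.mul_left ha c }
    have h1 : Ideal.span ((fun x => x ^ L) '' Set.range h) ≤ I := by
      rw [Ideal.span_le]
      rintro _ ⟨_, ⟨i, rfl⟩, rfl⟩
      exact hdiv i
    rw [Ideal.span_pow_eq_top _ hspan L] at h1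
    have h2 : (1 : K[X]) ∈ I := h1 trivial
    have h3 : (∏ i, h i) ^ L ∣ A.det * 1 := h2
    rwa [mul_one] at h3
  -- degrees
  have hd1 : ((∏ i, h i) ^ L).natDegree ≤ A.det.natDegree := natDegree_le_of_dvd hfull hdet
  have hd2 : A.det.natDegree ≤ ∑ j, N * (h (m.succAbove j)).natDegree := by
    refine natDegree_det_le' A _ fun s j => ?_
    simp only [hA, wmat, Matrix.of_apply, hF]
    refine (natDegree_iterate_derivative _ _).trans ?_
    refine (Nat.sub_le _ _).trans ?_
    exact natDegree_pow_le
  have hd3 : ((∏ i, h i) ^ L).natDegree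
      = L * ((h m).natDegree + ∑ j, (h (m.succAbove j)).natDegree) := by
    rw [natDegree_pow, natDegree_prod _ _ fun i _ => hne i, Fin.sum_univ_succAbove _ m]
  have hd4 : ∑ j, (h (m.succAbove j)).natDegree ≤ r * (h m).natDegree := by
    calc ∑ j, (h (m.succAbove j)).natDegree ≤ ∑ _j : Fin r, (h m).natDegree :=
          Finset.sum_le_sum fun j _ => hm _
      _ = r * (h m).natDegree := by simp
  rw [← Finset.mul_sum] at hd2
  set S := ∑ j, (h (m.succAbove j)).natDegree with hS
  set d := (h m).natDegree with hdd
  have hkey : L * d ≤ (N - L) * S := by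
    have h1 : L * (d + S) ≤ N * S := by rw [← hd3]; exact hd1.trans hd2
    have h2 : N = L + (N - L) ∨ r = 0 := by
      rcases Nat.eq_zero_or_pos r with h | h
      · exact Or.inr h
      · left; omega
    rcases h2 with h2 | h2
    · have h3 : N * S = L * S + (N - L) * S := by
        conv_lhs => rw [h2]
        ring
      rw [h3, mul_add] at h1
      omega
    · subst h2
      have h4 : S = 0 := by rw [hS]; simp
      rw [h4] at h1 ⊢
      simpa using h1
  have hdm : d = 0 := by
    by_contra hd0
    have hpos : 0 < d := Nat.pos_of_ne_zero hd0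
    have h1 : L * d ≤ ((N - L) * r) * d := by
      calc L * d ≤ (N - L) * S := hkey
        _ ≤ (N - L) * (r * d) := Nat.mul_le_mul_left _ hd4
        _ = ((N - L) * r) * d := by ring
    have h2 : L ≤ (N - L) * r := Nat.le_of_mul_le_mul_right h1 hpos
    have h3 : N - L ≤ r := by omega
    have h4 : (N - L) * r ≤ r * r := Nat.mul_le_mul_right _ h3
    have h5 : (r + 1) ^ 2 = r * r + 2 * r + 1 := by ring
    omega
  intro i
  have := hm i
  omega

/-- **High powers of pairwise non-proportional polynomials are linearly independent.** -/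
theorem pow_indep : ∀ (k : ℕ) (f : Fin k → K[X]) (N : ℕ), k ^ 2 ≤ N → (∀ i, f i ≠ 0) →
    (∀ i j, i ≠ j → ∀ c : K, f i ≠ C c * f j) → LinearIndependent K (fun i => f i ^ N) := by
  classical
  intro k
  induction k with
  | zero => intro f N _ _ _; exact linearIndependent_empty_type
  | succ r ih =>
    intro f N hN hne hpr
    by_contra hcon
    obtain ⟨c, hc, i0, hi0⟩ := Fintype.not_linearIndependent_iff.1 hcon
    have hN' : r ^ 2 ≤ N := (Nat.pow_le_pow_left (Nat.le_succ r) 2).trans hN
    -- all subfamilies
    have hsub : ∀ m : Fin (r + 1), LinearIndependent K (fun j => f (m.succAbove j) ^ N) := by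
      intro m
      refine ih (fun j => f (m.succAbove j)) N hN' (fun j => hne _) fun i j hij => hpr _ _ ?_
      exact fun h => hij (Fin.succAbove_right_injective h)
    have hcall : ∀ m, c m ≠ 0 := by
      intro m hm
      rw [Fin.sum_univ_succAbove _ m, hm, zero_smul, zero_add] at hc
      have h1 := Fintype.linearIndependent_iff.1 (hsub m) (fun j => c (m.succAbove j)) hc
      rcases eq_or_ne i0 m with rfl | h
      · exact hi0 hm
      · obtain ⟨j, rfl⟩ := Fin.exists_succAbove_eq h
        exact hi0 (h1 j)
    -- divide by the greatest common divisor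
    obtain ⟨g, hg⟩ := (IsPrincipalIdealRing.principal (Ideal.span (Set.range f)))
    rw [← Ideal.span] at hg
    have hdvd : ∀ i, ∃ q, f i = g * q := by
      intro i
      have : f i ∈ Ideal.span (Set.range f) := Ideal.subset_span ⟨i, rfl⟩
      rw [hg, Ideal.mem_span_singleton] at this
      exact this
    choose q hq using hdvd
    have hg0 : g ≠ 0 := by
      rintro rfl
      apply hne i0
      rw [hq i0, zero_mul]
    have hq0 : ∀ i, q i ≠ 0 := by
      intro i h0
      apply hne i
      rw [hq i, h0, mul_zero]
    have hspan : Ideal.span (Set.range q) = ⊤ := by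
      have h1 : g ∈ Ideal.span (Set.range f) := by
        rw [hg]; exact Ideal.mem_span_singleton_self g
      have h2 : Ideal.span (Set.range f) ≤ Ideal.span {g} * Ideal.span (Set.range q) := by
        rw [Ideal.span_le]
        rintro _ ⟨i, rfl⟩
        rw [hq i]
        exact Ideal.mul_mem_mul (Ideal.mem_span_singleton_self g) (Ideal.subset_span ⟨i, rfl⟩)
      obtain ⟨u, hu, hgu⟩ := Ideal.mem_span_singleton_mul.1 (h2 h1)
      have h3 : u = 1 := by
        apply mul_left_cancel₀ hg0
        rw [hgu, mul_one]
      rw [h3] at hu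
      exact (Ideal.eq_top_iff_one _).2 hu
    have hrel : ∑ i, C (c i) * q i ^ N = 0 := by
      have h1 : g ^ N * ∑ i, C (c i) * q i ^ N = 0 := by
        rw [← hc, Finset.mul_sum]
        refine Finset.sum_congr rfl fun i _ => ?_
        rw [smul_eq_C_mul, hq i, mul_pow]; ring
      rcases mul_eq_zero.1 h1 with h | h
      · exact absurd h (pow_ne_zero _ hg0)
      · exact h
    have hprq : ∀ i j, i ≠ j → ∀ a : K, q i ≠ C a * q j := by
      intro i j hij a h
      apply hpr i j hij a
      rw [hq i, hq j, h]; ring
    have hliq : ∀ m : Fin (r + 1), LinearIndependent K (fun j => q (m.succAbove j) ^ N) := by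
      intro m
      refine ih (fun j => q (m.succAbove j)) N hN' (fun j => hq0 _) fun i j hij => hprq _ _ ?_
      exact fun h => hij (Fin.succAbove_right_injective h)
    have hdeg := degree_step q N hN hspan hq0 c hcall hrel hliq
    rcases Nat.eq_zero_or_pos r with hr | hr
    · subst hr
      have h1 : C (c 0) * q 0 ^ N = 0 := by simpa using hrel
      rcases mul_eq_zero.1 h1 with h | h
      · exact hcall 0 (C_eq_zero.1 h)
      · exact pow_ne_zero _ (hq0 0) h
    · have h01 : (0 : Fin (r + 1)) ≠ Fin.last r := by
        intro h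
        have := congrArg Fin.val h
        simp at this
        omega
      obtain ⟨a, ha⟩ := natDegree_eq_zero.1 (hdeg 0)
      obtain ⟨b, hb⟩ := natDegree_eq_zero.1 (hdeg (Fin.last r))
      have hb0 : b ≠ 0 := by
        rintro rfl
        apply hq0 (Fin.last r)
        rw [← hb, C_0]
      apply hprq 0 (Fin.last r) h01 (a / b)
      rw [← ha, ← hb, ← C_mul, div_mul_cancel₀ _ hb0]

end Pool.Agent.X19.DP
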